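import Mathlib

set_option autoImplicit false
set_option linter.unusedSectionVars false

namespace Pool.H85.AAC

open WeierstrassCurve WeierstrassCurve.Affine

/-- The curve `Y² = X³ + B` over the rationals. -/
def cv (B : ℚ) : WeierstrassCurve ℚ := ⟨0, 0, 0, 0, B⟩

section norm

variable (p : ℕ) [hp : Fact p.Prime]

/-- `r` is integral at `p`. -/
def I (r : ℚ) : Prop := padicNorm p r ≤ 1
/-- `r` is divisible by `p` at `p`. -/
def M (r : ℚ) : Prop := padicNorm p r < 1

variable {p}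

lemma I.of_M {r : ℚ} (h : M p r) : I p r := le_of_lt h

lemma I.add {a b : ℚ} (ha : I p a) (hb : I p b) : I p (a + b) :=
  le_trans (padicNorm.nonarchimedean (p := p)) (max_le ha hb)

lemma I.neg {a : ℚ} (ha : I p a) : I p (-a) := by
  unfold I at *; rwa [padicNorm.neg]

lemma I.sub {a b : ℚ} (ha : I p a) (hb : I p b) : I p (a - b) := by
  rw [sub_eq_add_neg]; exact ha.add hb.neg

lemma I.mul {a b : ℚ} (ha : I p a) (hb : I p b) : I p (a * b) := by
  unfold I at *; rw [padicNorm.mul]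
  exact mul_le_one₀ ha (padicNorm.nonneg b) hb

lemma I.pow {a : ℚ} (ha : I p a) (n : ℕ) : I p (a ^ n) := by
  induction n with
  | zero => simp [I]
  | succ n ih => rw [pow_succ]; exact ih.mul ha

lemma I.int (z : ℤ) : I p (z : ℚ) := padicNorm.of_int z

lemma I.nat (z : ℕ) : I p (z : ℚ) := padicNorm.of_nat z

lemma M.add {a b : ℚ} (ha : M p a) (hb : M p b) : M p (a + b) :=
  lt_of_le_of_lt (padicNorm.nonarchimedean (p := p)) (max_lt ha hb)

lemma M.neg {a : ℚ} (ha : M p a) : M p (-a) := by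
  unfold M at *; rwa [padicNorm.neg]

lemma M.sub {a b : ℚ} (ha : M p a) (hb : M p b) : M p (a - b) := by
  rw [sub_eq_add_neg]; exact ha.add hb.neg

lemma M.mul {a b : ℚ} (ha : M p a) (hb : I p b) : M p (a * b) := by
  unfold M I at *; rw [padicNorm.mul]
  calc padicNorm p a * padicNorm p b ≤ padicNorm p a * 1 :=
        mul_le_mul_of_nonneg_left hb (padicNorm.nonneg a)
    _ < 1 := by rwa [mul_one]

lemma M.mul' {a b : ℚ} (ha : I p a) (hb : M p b) : M p (a * b) := by
  rw [mul_comm]; exact hb.mul ha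

lemma norm_one_add {a : ℚ} (ha : M p a) : padicNorm p (1 + a) = 1 := by
  have hne : padicNorm p (1 : ℚ) ≠ padicNorm p a := by
    unfold M at ha; rw [padicNorm.one]; exact ne_of_gt ha
  rw [padicNorm.add_eq_max_of_ne hne, padicNorm.one]
  exact max_eq_left (le_of_lt ha)

lemma norm_one_sub {a : ℚ} (ha : M p a) : padicNorm p (1 - a) = 1 := by
  rw [sub_eq_add_neg]; exact norm_one_add ha.neg

lemma I.div_unit {a b : ℚ} (ha : I p a) (hb : padicNorm p b = 1) : I p (a / b) := by
  unfold I at *; rw [padicNorm.div, hb, div_one]; exact ha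

lemma M.div_unit {a b : ℚ} (ha : M p a) (hb : padicNorm p b = 1) : M p (a / b) := by
  unfold M at *; rw [padicNorm.div, hb, div_one]; exact ha

lemma ne_zero_of_norm {b : ℚ} (hb : padicNorm p b = 1) : b ≠ 0 := by
  rintro rfl; simp at hb

lemma den_dvd_iff (r : ℚ) : p ∣ r.den ↔ 1 < padicNorm p r := by
  have hr : r = (r.num : ℚ) / (r.den : ℚ) := (Rat.num_div_den r).symm
  have hd0 : (r.den : ℚ) ≠ 0 := by exact_mod_cast r.den_ne_zero
  constructor
  · intro h
    have hnum : ¬ (p : ℤ) ∣ r.num := by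
      intro h'
      have h1 : p ∣ r.num.natAbs := Int.natCast_dvd.mp h'
      have := Nat.dvd_gcd h1 h
      rw [Nat.Coprime.gcd_eq_one r.reduced] at this
      exact hp.out.one_lt.ne' (Nat.dvd_one.mp this)
    have h1 : padicNorm p (r.num : ℚ) = 1 := (padicNorm.int_eq_one_iff _).2 hnum
    have h2 : padicNorm p (r.den : ℚ) < 1 := (padicNorm.nat_lt_one_iff _).2 h
    have h3 : 0 < padicNorm p (r.den : ℚ) :=
      lt_of_le_of_ne (padicNorm.nonneg _) (Ne.symm (padicNorm.nonzero hd0))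
    rw [hr, padicNorm.div, h1]
    exact (one_lt_div h3).2 h2
  · intro h
    by_contra hnd
    have h2 : padicNorm p (r.den : ℚ) = 1 := (padicNorm.nat_eq_one_iff _).2 hnd
    rw [hr, padicNorm.div, h2, div_one] at h
    exact absurd h (not_lt.2 (padicNorm.of_int _))

end norm

section core

variable {p : ℕ} [hp : Fact p.Prime]

/-- The geometric heart: three collinear points on `Y² = X³ + B` with `p ∣ B`. -/
lemma add_core {x1 y1 x2 y2 l m B : ℚ} (hy1 : y1 ≠ 0) (hy2 : y2 ≠ 0)
    (h1 : y1 ^ 2 = x1 ^ 3 + B) (hm1 : y1 = l * x1 + m) (hm2 : y2 = l * x2 + m)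
    (hR : x1 ^ 2 + x1 * x2 + x2 ^ 2 = l ^ 2 * (x1 + x2) + 2 * l * m)
    (hF : l * (1 - B * ((1 / y1) ^ 2 + (1 / y1) * (1 / y2) + (1 / y2) ^ 2)) +
      m * ((x1 / y1) ^ 2 + (x1 / y1) * (x2 / y2) + (x2 / y2) ^ 2) = 0)
    (hB : M p B) (ht1 : I p (x1 / y1)) (hs1 : I p (1 / y1)) (ht2 : I p (x2 / y2))
    (hs2 : I p (1 / y2)) :
    l * (l ^ 2 - x1 - x2) + m ≠ 0 ∧
    I p ((l ^ 2 - x1 - x2) / (l * (l ^ 2 - x1 - x2) + m)) ∧
    I p (1 / (l * (l ^ 2 - x1 - x2) + m)) ∧
    M p ((l ^ 2 - x1 - x2) / (l * (l ^ 2 - x1 - x2) + m) + x1 / y1 + x2 / y2) := by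
  set t1 := x1 / y1 with ht1d
  set s1 := 1 / y1 with hs1d
  set t2 := x2 / y2 with ht2d
  set s2 := 1 / y2 with hs2d
  set N := t1 ^ 2 + t1 * t2 + t2 ^ 2 with hN
  set D := 1 - B * (s1 ^ 2 + s1 * s2 + s2 ^ 2) with hD
  have hDn : padicNorm p D = 1 := norm_one_sub
    (hB.mul (((hs1.pow 2).add (hs1.mul hs2)).add (hs2.pow 2)))
  have hD0 : D ≠ 0 := ne_zero_of_norm hDn
  have hNI : I p N := ((ht1.pow 2).add (ht1.mul ht2)).add (ht2.pow 2)
  have hline1 : 1 = l * t1 + m * s1 := by
    rw [ht1d, hs1d]; field_simp; linarith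
  have hDm : D = m * (D * s1 - N * t1) := by
    have : D = D * (l * t1 + m * s1) := by rw [← hline1]; ring
    calc D = D * (l * t1 + m * s1) := this
      _ = (l * D) * t1 + m * D * s1 := by ring
      _ = (-(m * N)) * t1 + m * D * s1 := by rw [show l * D = -(m * N) by linarith]
      _ = m * (D * s1 - N * t1) := by ring
  have hm0 : m ≠ 0 := by
    rintro rfl; rw [zero_mul] at hDm; exact hD0 hDm
  set a := N / D with ha
  set b := s1 - a * t1 with hb
  have haI : I p a := hNI.div_unit hDn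
  have hbI : I p b := hs1.sub (haI.mul ht1)
  have hbm : m * b = 1 := by
    have : D * (m * b) = D * 1 := by
      rw [hb, ha]
      field_simp
      linarith
    exact mul_left_cancel₀ hD0 this
  have hlm : l = -(a * m) := by
    have : D * l = D * (-(a * m)) := by
      rw [ha]; field_simp; linarith
    exact mul_left_cancel₀ hD0 this
  have hU : padicNorm p (1 + B * a ^ 3) = 1 := norm_one_add (hB.mul (haI.pow 3))
  have hU0 : 1 + B * a ^ 3 ≠ 0 := ne_zero_of_norm hU
  have hprod : y1 * y2 * (l * (l ^ 2 - x1 - x2) + m) = m ^ 3 * (1 + B * a ^ 3) := by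
    have e3 : x1 * x2 * (l ^ 2 - x1 - x2) = m ^ 2 - B := by
      have hB' : B = (l * x1 + m) ^ 2 - x1 ^ 3 := by rw [← hm1]; linarith
      rw [hB']
      linear_combination (-x1) * hR
    have e2 : x1 * x2 + (x1 + x2) * (l ^ 2 - x1 - x2) = - 2 * l * m := by
      linear_combination (-1) * hR
    have hal : m ^ 3 * (1 + B * a ^ 3) = m ^ 3 - B * l ^ 3 := by
      rw [hlm]; ring
    rw [hal, hm1, hm2]
    linear_combination l ^ 3 * e3 + l ^ 2 * m * e2
  have hy3 : l * (l ^ 2 - x1 - x2) + m ≠ 0 := by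
    intro h0
    rw [h0, mul_zero] at hprod
    exact (mul_ne_zero (pow_ne_zero 3 hm0) hU0) hprod.symm
  have hsum : (l ^ 2 - x1 - x2) / (l * (l ^ 2 - x1 - x2) + m) + t1 + t2
      = -(3 * (B * (a ^ 2 * b))) / (1 + B * a ^ 3) := by
    have e3 : x1 * x2 * (l ^ 2 - x1 - x2) = m ^ 2 - B := by
      have hB' : B = (l * x1 + m) ^ 2 - x1 ^ 3 := by rw [← hm1]; linarith
      rw [hB']
      linear_combination (-x1) * hR
    have e2 : x1 * x2 + (x1 + x2) * (l ^ 2 - x1 - x2) = - 2 * l * m := by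
      linear_combination (-1) * hR
    have hnum : (l ^ 2 - x1 - x2) * y1 * y2 + x1 * y2 * (l * (l ^ 2 - x1 - x2) + m)
        + x2 * y1 * (l * (l ^ 2 - x1 - x2) + m) = - 3 * B * l ^ 2 := by
      rw [hm1, hm2]
      linear_combination 3 * l ^ 2 * e3 + 2 * l * m * e2
    have hlhs : (l ^ 2 - x1 - x2) / (l * (l ^ 2 - x1 - x2) + m) + t1 + t2
        = (- 3 * B * l ^ 2) / (m ^ 3 * (1 + B * a ^ 3)) := by
      rw [← hprod, ← hnum, ht1d, ht2d]
      field_simp
    rw [hlhs, hlm]
    have hb' : b = 1 / m := by field_simp; linarith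
    rw [hb']
    field_simp
  have hsumM : M p ((l ^ 2 - x1 - x2) / (l * (l ^ 2 - x1 - x2) + m) + t1 + t2) := by
    rw [hsum]
    refine M.div_unit (M.neg ?_) hU
    refine M.mul' ?_ (hB.mul ((haI.pow 2).mul hbI))
    exact_mod_cast I.nat (p := p) 3
  have ht3 : I p ((l ^ 2 - x1 - x2) / (l * (l ^ 2 - x1 - x2) + m)) := by
    have := ((I.of_M hsumM).sub ht2).sub ht1
    convert this using 1
    ring
  refine ⟨hy3, ht3, ?_, hsumM⟩
  have hs3 : 1 / (l * (l ^ 2 - x1 - x2) + m)
      = b + a * ((l ^ 2 - x1 - x2) / (l * (l ^ 2 - x1 - x2) + m)) := by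
    have hb' : b = 1 / m := by field_simp; linarith
    have ha' : a = -(l / m) := by rw [hlm]; field_simp
    rw [hb', ha']
    field_simp
    ring
  rw [hs3]
  exact hbI.add (haI.mul ht3)

end core

section curve

variable {B : ℚ}

lemma eqn_iff (x y : ℚ) : (cv B).toAffine.Equation x y ↔ y ^ 2 = x ^ 3 + B := by
  rw [WeierstrassCurve.Affine.equation_iff]
  simp [cv]

lemma nonsing_of (hB : B ≠ 0) {x y : ℚ} (h : y ^ 2 = x ^ 3 + B) :
    (cv B).toAffine.Nonsingular x y := by
  rw [WeierstrassCurve.Affine.nonsingular_iff]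
  refine ⟨(eqn_iff x y).2 h, ?_⟩
  simp only [cv]
  by_contra hcon
  push Not at hcon
  obtain ⟨h1, h2⟩ := hcon
  have hy : y = 0 := by linarith
  have hx : x = 0 := by
    have : x ^ 2 = 0 := by nlinarith
    exact pow_eq_zero_iff (two_ne_zero) |>.1 this
  apply hB
  rw [hx, hy] at h
  linarith

/-- The coordinate `t = x / y` (zero at infinity). -/
noncomputable def tt : (cv B).toAffine.Point → ℚ
  | .zero => 0
  | @Point.some _ _ _ x y _ => x / y

/-- Points with `y ≠ 0` such that `x / y` and `1 / y` are integral at `p`, and infinity. -/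
def E0 (p : ℕ) : (cv B).toAffine.Point → Prop
  | .zero => True
  | @Point.some _ _ _ x y _ => y ≠ 0 ∧ I p (x / y) ∧ I p (1 / y)

lemma tt_some {x y : ℚ} (h : (cv B).toAffine.Nonsingular x y) :
    tt (Point.some x y h) = x / y := rfl

lemma tt_zero : tt (0 : (cv B).toAffine.Point) = 0 := rfl

variable {p : ℕ} [hp : Fact p.Prime]

lemma E0_zero : E0 p (0 : (cv B).toAffine.Point) := trivial

lemma E0_some {x y : ℚ} (h : (cv B).toAffine.Nonsingular x y) :
    E0 p (Point.some x y h) ↔ (y ≠ 0 ∧ I p (x / y) ∧ I p (1 / y)) := Iff.rfl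

/-- `E0` is closed under addition and `t` is additive modulo `p`. -/
lemma E0_add (hB : M p B) {P Q : (cv B).toAffine.Point} (hP : E0 p P) (hQ : E0 p Q) :
    E0 p (P + Q) ∧ M p (tt (P + Q) - tt P - tt Q) := by
  have hM0 : M p 0 := by simp [M]
  rcases P with _ | ⟨x1, y1, h1⟩
  · change E0 p (0 + Q) ∧ M p (tt (0 + Q) - 0 - tt Q)
    rw [zero_add]
    refine ⟨hQ, ?_⟩
    simpa using hM0
  rcases Q with _ | ⟨x2, y2, h2⟩
  · change E0 p (Point.some x1 y1 h1 + 0) ∧
      M p (tt (Point.some x1 y1 h1 + 0) - tt (Point.some x1 y1 h1) - 0)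
    rw [add_zero]
    refine ⟨hP, ?_⟩
    simpa using hM0
  obtain ⟨hy1, ht1, hs1⟩ := hP
  obtain ⟨hy2, ht2, hs2⟩ := hQ
  have e1 : y1 ^ 2 = x1 ^ 3 + B := (eqn_iff x1 y1).1 h1.1
  have e2 : y2 ^ 2 = x2 ^ 3 + B := (eqn_iff x2 y2).1 h2.1
  by_cases hxy : x1 = x2 ∧ y1 = (cv B).toAffine.negY x2 y2
  · rw [Point.add_of_Y_eq hxy.1 hxy.2]
    have hy : y1 = -y2 := by
      have := hxy.2
      simp [cv, negY] at this
      exact this
    refine ⟨E0_zero, ?_⟩
    rw [tt_zero, tt_some, tt_some, hxy.1, hy]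
    have : (0 : ℚ) - x2 / -y2 - x2 / y2 = 0 := by field_simp; ring
    rw [this]
    exact hM0
  · have hneg : (cv B).toAffine.negY x2 y2 = - y2 := by simp [cv, negY]
    rw [hneg] at hxy
    set l := (cv B).toAffine.slope x1 x2 y1 y2 with hl
    set m := y1 - l * x1 with hm
    have key : y2 = l * x2 + m ∧
        x1 ^ 2 + x1 * x2 + x2 ^ 2 = l ^ 2 * (x1 + x2) + 2 * l * m ∧
        l * (1 - B * ((1 / y1) ^ 2 + (1 / y1) * (1 / y2) + (1 / y2) ^ 2)) +
          m * ((x1 / y1) ^ 2 + (x1 / y1) * (x2 / y2) + (x2 / y2) ^ 2) = 0 := by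
      by_cases hx : x1 = x2
      · have hyne : y1 ≠ - y2 := fun h => hxy ⟨hx, h⟩
        have hyy : y1 = y2 := by
          have : (y1 - y2) * (y1 + y2) = 0 := by
            have : y1 ^ 2 = y2 ^ 2 := by rw [e1, e2, hx]
            linarith
          rcases mul_eq_zero.1 this with h | h
          · linarith
          · exact absurd (by linarith) hyne
        have hsl : l = 3 * x1 ^ 2 / (2 * y1) := by
          rw [hl, slope_of_Y_ne hx (by rw [hneg]; exact hyne)]
          simp [cv, negY]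
          congr 1
          ring
        have hly : 2 * l * y1 = 3 * x1 ^ 2 := by rw [hsl]; field_simp
        subst hx
        subst hyy
        have hBe : B = y1 ^ 2 - x1 ^ 3 := by linarith
        refine ⟨by rw [hm]; ring, ?_, ?_⟩
        · rw [hm]
          linear_combination (-1) * hly
        · rw [hm, hBe, hsl]
          field_simp
          ring
      · have hsl : l = (y1 - y2) / (x1 - x2) := by
          rw [hl, slope_of_X_ne hx]
        have hd : x1 - x2 ≠ 0 := sub_ne_zero.2 hx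
        have hld : l * (x1 - x2) = y1 - y2 := by rw [hsl]; field_simp
        have hy2' : y2 = l * x2 + m := by rw [hm]; linarith
        have hR : x1 ^ 2 + x1 * x2 + x2 ^ 2 = l ^ 2 * (x1 + x2) + 2 * l * m := by
          have : (x1 - x2) * (x1 ^ 2 + x1 * x2 + x2 ^ 2) =
              (x1 - x2) * (l ^ 2 * (x1 + x2) + 2 * l * m) := by
            have hy1' : y1 = l * x1 + m := by rw [hm]; ring
            have e1' := e1
            have e2' := e2
            rw [hy1'] at e1'
            rw [hy2'] at e2'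
            linear_combination (-1) * e1' + e2'
          exact mul_left_cancel₀ hd this
        refine ⟨hy2', hR, ?_⟩
        have hy1' : y1 = l * x1 + m := by rw [hm]; ring
        -- multiply by y1^2 y2^2 (x1 - x2)
        have h3 : (x1 - x2) * (y1 ^ 2 * y2 ^ 2 * (l * (1 - B * ((1 / y1) ^ 2 +
            (1 / y1) * (1 / y2) + (1 / y2) ^ 2)) +
            m * ((x1 / y1) ^ 2 + (x1 / y1) * (x2 / y2) + (x2 / y2) ^ 2))) = 0 := by
          have h4 : y1 ^ 2 * y2 ^ 2 * (l * (1 - B * ((1 / y1) ^ 2 +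
            (1 / y1) * (1 / y2) + (1 / y2) ^ 2)) +
            m * ((x1 / y1) ^ 2 + (x1 / y1) * (x2 / y2) + (x2 / y2) ^ 2)) =
            l * (y1 ^ 2 * y2 ^ 2 - B * (y2 ^ 2 + y1 * y2 + y1 ^ 2)) +
            m * (x1 ^ 2 * y2 ^ 2 + x1 * x2 * y1 * y2 + x2 ^ 2 * y1 ^ 2) := by
            field_simp
          rw [h4]
          have hmd : m * (x1 - x2) = x1 * y2 - x2 * y1 := by
            rw [hm]; linear_combination (-x1) * hld
          linear_combination (y1 ^ 2 * y2 ^ 2 - B * (y2 ^ 2 + y1 * y2 + y1 ^ 2)) * hld +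
            (x1 ^ 2 * y2 ^ 2 + x1 * x2 * y1 * y2 + x2 ^ 2 * y1 ^ 2) * hmd -
            y2 ^ 3 * e1 + y1 ^ 3 * e2
        have h5 := (mul_eq_zero.1 h3).resolve_left hd
        have h6 : y1 ^ 2 * y2 ^ 2 ≠ 0 := mul_ne_zero (pow_ne_zero 2 hy1) (pow_ne_zero 2 hy2)
        exact (mul_eq_zero.1 h5).resolve_left h6
    obtain ⟨hm2, hR, hF⟩ := key
    have hm1 : y1 = l * x1 + m := by rw [hm]; ring
    obtain ⟨c1, c2, c3, c4⟩ := add_core hy1 hy2 e1 hm1 hm2 hR hF hB ht1 hs1 ht2 hs2
    have hadd : Point.some x1 y1 h1 + Point.some x2 y2 h2 =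
        Point.some _ _ (nonsingular_add h1 h2 (by rw [hneg]; exact hxy)) :=
      Point.add_some (by rw [hneg]; exact hxy)
    have hX : (cv B).toAffine.addX x1 x2 l = l ^ 2 - x1 - x2 := by
      simp [cv, addX]
    have hY : (cv B).toAffine.addY x1 x2 y1 l = -(l * (l ^ 2 - x1 - x2) + m) := by
      simp [cv, addY, negAddY, negY, hm]
      ring
    rw [hadd]
    constructor
    · rw [E0_some, ← hl, hX, hY]
      refine ⟨neg_ne_zero.2 c1, ?_, ?_⟩
      · rw [div_neg]; exact c2.neg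
      · rw [div_neg]; exact c3.neg
    · rw [tt_some, tt_some, tt_some, ← hl, hX, hY, div_neg]
      have := c4.neg
      convert this using 1
      ring

/-- The kernel of reduction: `O` and the points whose `x`-coordinate has denominator divisible
by `p`. -/
def E1 (p : ℕ) : (cv B).toAffine.Point → Prop
  | .zero => True
  | @Point.some _ _ _ x _ _ => p ∣ x.den

lemma E1_iff (hB : M p B) (P : (cv B).toAffine.Point) : E1 p P ↔ E0 p P ∧ M p (tt P) := by
  rcases P with _ | ⟨x, y, h⟩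
  · exact ⟨fun _ => ⟨trivial, by change M p 0; simp [M]⟩, fun _ => trivial⟩
  have e : y ^ 2 = x ^ 3 + B := (eqn_iff x y).1 h.1
  change p ∣ x.den ↔ (y ≠ 0 ∧ I p (x / y) ∧ I p (1 / y)) ∧ M p (x / y)
  rw [den_dvd_iff]
  have hBl : padicNorm p B < 1 := hB
  have hyn : padicNorm p y ^ 2 = padicNorm p (x ^ 3 + B) := by
    rw [← e, sq, sq, padicNorm.mul]
  have hx3 : padicNorm p (x ^ 3) = padicNorm p x ^ 3 := by
    rw [pow_succ, sq, padicNorm.mul, padicNorm.mul]; ring
  constructor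
  · intro hx
    have hx3l : 1 < padicNorm p x ^ 3 := one_lt_pow₀ hx (by norm_num)
    have hne : padicNorm p (x ^ 3) ≠ padicNorm p B := by
      rw [hx3]; exact ne_of_gt (hBl.trans hx3l)
    have hy2 : padicNorm p y ^ 2 = padicNorm p x ^ 3 := by
      rw [hyn, padicNorm.add_eq_max_of_ne hne, hx3]
      exact max_eq_left (le_of_lt (hBl.trans hx3l))
    have hyg : 1 < padicNorm p y := by
      by_contra hc
      have hc' : padicNorm p y ≤ 1 := not_lt.1 hc
      have : padicNorm p y ^ 2 ≤ 1 := pow_le_one₀ (padicNorm.nonneg _) hc'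
      linarith
    have hy0 : y ≠ 0 := by rintro rfl; simp at hyg; linarith
    have hxy : padicNorm p x < padicNorm p y := by
      by_contra hc
      have hc' : padicNorm p y ≤ padicNorm p x := not_lt.1 hc
      have h1 : padicNorm p y ^ 2 ≤ padicNorm p x ^ 2 :=
        pow_le_pow_left₀ (padicNorm.nonneg _) hc' 2
      have h2 : padicNorm p x ^ 2 < padicNorm p x ^ 3 := by
        apply pow_lt_pow_right₀ hx; norm_num
      linarith
    have hyp : 0 < padicNorm p y := by linarith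
    have hM : M p (x / y) := by
      unfold M; rw [padicNorm.div]; exact (div_lt_one hyp).2 hxy
    refine ⟨⟨hy0, I.of_M hM, ?_⟩, hM⟩
    unfold I; rw [padicNorm.div, padicNorm.one]
    exact (div_le_one hyp).2 (le_of_lt hyg)
  · rintro ⟨⟨hy0, -, hs⟩, hM⟩
    have hyp : 0 < padicNorm p y :=
      lt_of_le_of_ne (padicNorm.nonneg _) (Ne.symm (padicNorm.nonzero hy0))
    have hyg : 1 ≤ padicNorm p y := by
      unfold I at hs; rw [padicNorm.div, padicNorm.one] at hs
      exact (div_le_one hyp).1 hs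
    have hxy : padicNorm p x < padicNorm p y := by
      unfold M at hM; rw [padicNorm.div] at hM
      exact (div_lt_one hyp).1 hM
    by_contra hc
    have hx : padicNorm p x ≤ 1 := not_lt.1 hc
    have hx3' : padicNorm p x ^ 3 ≤ 1 := pow_le_one₀ (padicNorm.nonneg _) hx
    have h1 : padicNorm p y ^ 2 ≤ max (padicNorm p x ^ 3) (padicNorm p B) := by
      rw [hyn, ← hx3]; exact padicNorm.nonarchimedean
    have h2 : (1 : ℚ) ≤ padicNorm p y ^ 2 := one_le_pow₀ hyg
    have h3 : (1 : ℚ) ≤ padicNorm p x ^ 3 := by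
      rcases le_max_iff.1 (h2.trans h1) with h | h
      · exact h
      · linarith
    have hx1 : padicNorm p x = 1 := by
      have : padicNorm p x ^ 3 = 1 := le_antisymm hx3' h3
      exact (pow_eq_one_iff_of_nonneg (padicNorm.nonneg _) (by norm_num)).1 this
    have hy1 : padicNorm p y ≤ 1 := by
      have h4 : padicNorm p y ^ 2 ≤ 1 := h1.trans (max_le hx3' (le_of_lt hBl))
      exact (sq_le_one_iff₀ (padicNorm.nonneg _)).1 h4
    rw [hx1] at hxy
    linarith

lemma E0_nsmul (hB : M p B) {P : (cv B).toAffine.Point} (hP : E0 p P) (k : ℕ) :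
    E0 p (k • P) ∧ M p (tt (k • P) - (k : ℚ) * tt P) := by
  have hM0 : M p 0 := by simp [M]
  induction k with
  | zero =>
    rw [zero_nsmul]
    refine ⟨E0_zero, ?_⟩
    rw [tt_zero]
    simpa using hM0
  | succ k ih =>
    rw [succ_nsmul]
    obtain ⟨h1, h2⟩ := ih
    obtain ⟨h3, h4⟩ := E0_add hB h1 hP
    refine ⟨h3, ?_⟩
    have := h4.add h2
    convert this using 1
    push_cast
    ring

lemma E0_neg {P : (cv B).toAffine.Point} (hP : E0 p P) :
    E0 p (-P) ∧ tt (-P) = - tt P := by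
  rcases P with _ | ⟨x, y, h⟩
  · change E0 p (-0) ∧ tt (-0) = - 0
    rw [neg_zero, neg_zero]
    exact ⟨E0_zero, tt_zero⟩
  rw [Point.neg_some]
  obtain ⟨h1, h2, h3⟩ := hP
  have hneg : (cv B).toAffine.negY x y = - y := by simp [cv, negY]
  constructor
  · rw [E0_some, hneg]
    exact ⟨neg_ne_zero.2 h1, by rw [div_neg]; exact h2.neg, by rw [div_neg]; exact h3.neg⟩
  · rw [tt_some, tt_some, hneg, div_neg]

lemma E0_zsmul (hB : M p B) {P : (cv B).toAffine.Point} (hP : E0 p P) (k : ℤ) :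
    E0 p (k • P) ∧ M p (tt (k • P) - (k : ℚ) * tt P) := by
  obtain ⟨n, rfl | rfl⟩ := Int.eq_nat_or_neg k
  · rw [natCast_zsmul]
    exact_mod_cast E0_nsmul hB hP n
  · obtain ⟨h1, h2⟩ := E0_nsmul hB hP n
    obtain ⟨h3, h4⟩ := E0_neg h1
    rw [neg_smul, natCast_zsmul]
    refine ⟨h3, ?_⟩
    rw [h4]
    have := h2.neg
    convert this using 1
    push_cast
    ring

/-- If some rational point `R` reduces to a nonsingular point other than the identity, then
`p ∣ k` whenever the denominator of `k P` is divisible by `p`, `P` being a generator. -/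
theorem criterion (hB : M p B) {P R : (cv B).toAffine.Point} (hgen : ∃ n : ℤ, R = n • P)
    (hR0 : E0 p R) (hR1 : ¬ M p (tt R)) {k : ℕ} (hk : E1 p (k • P)) : p ∣ k := by
  obtain ⟨n, hn⟩ := hgen
  have h1 : E0 p (k • P) ∧ M p (tt (k • P)) := (E1_iff hB _).1 hk
  obtain ⟨h2, h3⟩ := E0_zsmul hB h1.1 n
  have hcomm : n • (k • P) = k • R := by
    calc n • (k • P) = n • ((k : ℤ) • P) := by rw [natCast_zsmul]
      _ = (k : ℤ) • (n • P) := by rw [← mul_zsmul, ← mul_zsmul, mul_comm]
      _ = k • R := by rw [natCast_zsmul, hn]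
  rw [hcomm] at h2 h3
  have h4 : M p (tt (k • R)) := by
    have := h3.add (M.mul' (I.int n) h1.2)
    convert this using 1
    ring
  obtain ⟨-, h5⟩ := E0_nsmul hB hR0 k
  have h6 : M p ((k : ℚ) * tt R) := by
    have := h4.sub h5
    convert this using 1
    ring
  unfold M at h6 hR1
  rw [padicNorm.mul] at h6
  have h7 : 1 ≤ padicNorm p (tt R) := not_lt.1 hR1
  have h8 : padicNorm p (k : ℚ) < 1 := by
    by_contra hc
    have hc' : 1 ≤ padicNorm p (k : ℚ) := not_lt.1 hc
    have : 1 ≤ padicNorm p (k : ℚ) * padicNorm p (tt R) := one_le_mul_of_one_le_of_one_le hc' h7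
    linarith
  exact (padicNorm.nat_lt_one_iff k).1 h8

end curve

end Pool.H85.AAC
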