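import Mathlib
import Pool.Agent.H85.AAC.Basic

set_option autoImplicit false
set_option linter.unusedSectionVars false

namespace Pool.H85.AAC

open WeierstrassCurve WeierstrassCurve.Affine

/-- The point of `Y² = X³ - 432 n²` attached to three times a solution of `x³ + y³ = n z³`. -/
lemma on_curve {n x y z : ℚ} (hx : x ≠ 0) (hy : y ≠ 0) (hz : z ≠ 0)
    (h : x ^ 3 + y ^ 3 = n * z ^ 3) :
    (4 * (x ^ 3 - y ^ 3) * (2 * x ^ 6 + 5 * x ^ 3 * y ^ 3 + 2 * y ^ 6) / (x * y * z) ^ 3) ^ 2 =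
      (4 * (x ^ 6 + x ^ 3 * y ^ 3 + y ^ 6) / (x * y * z) ^ 2) ^ 3 + (-432 * n ^ 2) := by
  have hn : n = (x ^ 3 + y ^ 3) / z ^ 3 := by field_simp; linarith
  rw [hn]
  field_simp
  ring

section

variable {p : ℕ} [hp : Fact p.Prime]

lemma five_le_facts (h5 : 5 ≤ p) : ¬ (p : ℤ) ∣ 2 ∧ ¬ (p : ℤ) ∣ 3 := by
  constructor
  · intro h
    have := Int.le_of_dvd (by norm_num) h
    omega
  · intro h
    have := Int.le_of_dvd (by norm_num) h
    omega

lemma norm_eq_one {m : ℤ} (h : ¬ (p : ℤ) ∣ m) : padicNorm p (m : ℚ) = 1 :=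
  (padicNorm.int_eq_one_iff m).2 h

/-- A primitive solution with `p ∤ z` gives a rational point in `E0` outside the kernel of
reduction. -/
lemma exists_point (h5 : 5 ≤ p) {n x y z : ℤ} (hpn : (p : ℤ) ∣ n)
    (hx : ¬ (p : ℤ) ∣ x) (hy : ¬ (p : ℤ) ∣ y)
    (h : x ^ 3 + y ^ 3 = n * z ^ 3) (hz : ¬ (p : ℤ) ∣ z) (hn : n ≠ 0) :
    ∃ R : (cv (-432 * (n : ℚ) ^ 2)).toAffine.Point, E0 p R ∧ ¬ M p (tt R) := by
  have hpp : Prime (p : ℤ) := Nat.prime_iff_prime_int.1 hp.out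
  obtain ⟨h2, -⟩ := five_le_facts (p := p) h5
  have hs : (p : ℤ) ∣ x ^ 3 + y ^ 3 := by rw [h]; exact hpn.mul_right _
  have hx0 : (x : ℚ) ≠ 0 := by
    intro h0; apply hx; rw [Int.cast_eq_zero.1 h0]; exact dvd_zero _
  have hy0 : (y : ℚ) ≠ 0 := by
    intro h0; apply hy; rw [Int.cast_eq_zero.1 h0]; exact dvd_zero _
  have hz0 : (z : ℚ) ≠ 0 := by
    intro h0; apply hz; rw [Int.cast_eq_zero.1 h0]; exact dvd_zero _
  have hq : (x : ℚ) ^ 3 + (y : ℚ) ^ 3 = (n : ℚ) * (z : ℚ) ^ 3 := by exact_mod_cast h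
  have hB0 : (-432 * (n : ℚ) ^ 2) ≠ 0 := by
    have : (n : ℚ) ≠ 0 := by exact_mod_cast hn
    positivity
  have h4 : padicNorm p (4 : ℚ) = 1 := by
    have : ¬ (p : ℤ) ∣ 4 := by
      intro h'
      have h'' : (p : ℤ) ∣ 2 * 2 := by simpa using h'
      rcases hpp.dvd_or_dvd h'' with h3 | h3 <;> exact h2 h3
    have := norm_eq_one (p := p) this
    simpa using this
  have hA : padicNorm p ((x : ℚ) ^ 6 + (x : ℚ) ^ 3 * (y : ℚ) ^ 3 + (y : ℚ) ^ 6) = 1 := by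
    have : ¬ (p : ℤ) ∣ x ^ 6 + x ^ 3 * y ^ 3 + y ^ 6 := by
      intro h'
      have e : x ^ 6 + x ^ 3 * y ^ 3 + y ^ 6 = x ^ 6 + y ^ 3 * (x ^ 3 + y ^ 3) := by ring
      rw [e] at h'
      have := (Int.dvd_add_left (hs.mul_left (y ^ 3))).1 h'
      exact hx (hpp.dvd_of_dvd_pow this)
    have := norm_eq_one (p := p) this
    push_cast at this
    exact this
  have hC : padicNorm p (((x : ℚ) ^ 3 - (y : ℚ) ^ 3) *
      (2 * (x : ℚ) ^ 6 + 5 * (x : ℚ) ^ 3 * (y : ℚ) ^ 3 + 2 * (y : ℚ) ^ 6)) = 1 := by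
    have : ¬ (p : ℤ) ∣ (x ^ 3 - y ^ 3) * (2 * x ^ 6 + 5 * x ^ 3 * y ^ 3 + 2 * y ^ 6) := by
      intro h'
      have e : (x ^ 3 - y ^ 3) * (2 * x ^ 6 + 5 * x ^ 3 * y ^ 3 + 2 * y ^ 6) =
          -(2 * x ^ 9) + (x ^ 3 + y ^ 3) * (4 * x ^ 6 - x ^ 3 * y ^ 3 - 2 * y ^ 6) := by ring
      rw [e] at h'
      have h3 := (Int.dvd_add_left (hs.mul_right (4 * x ^ 6 - x ^ 3 * y ^ 3 - 2 * y ^ 6))).1 h'
      rw [dvd_neg] at h3
      rcases hpp.dvd_or_dvd h3 with h4 | h4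
      · exact h2 h4
      · exact hx (hpp.dvd_of_dvd_pow h4)
    have := norm_eq_one (p := p) this
    push_cast at this
    exact this
  have hxyz : padicNorm p ((x : ℚ) * y * z) = 1 := by
    have e1 := norm_eq_one (p := p) hx
    have e2 := norm_eq_one (p := p) hy
    have e3 := norm_eq_one (p := p) hz
    rw [padicNorm.mul, padicNorm.mul, e1, e2, e3]
    norm_num
  have hpow : ∀ k : ℕ, padicNorm p (((x : ℚ) * y * z) ^ k) = 1 := by
    intro k
    induction k with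
    | zero => simp
    | succ k ih => rw [pow_succ, padicNorm.mul, ih, hxyz, one_mul]
  have hX : padicNorm p (4 * ((x : ℚ) ^ 6 + (x : ℚ) ^ 3 * (y : ℚ) ^ 3 + (y : ℚ) ^ 6) /
      ((x : ℚ) * y * z) ^ 2) = 1 := by
    rw [padicNorm.div, padicNorm.mul, h4, hA, hpow]; norm_num
  have hY : padicNorm p (4 * ((x : ℚ) ^ 3 - (y : ℚ) ^ 3) *
      (2 * (x : ℚ) ^ 6 + 5 * (x : ℚ) ^ 3 * (y : ℚ) ^ 3 + 2 * (y : ℚ) ^ 6) /
      ((x : ℚ) * y * z) ^ 3) = 1 := by
    rw [padicNorm.div, mul_assoc, padicNorm.mul, h4, hC, hpow]; norm_num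
  refine ⟨Point.some _ _ (nonsing_of hB0 (on_curve hx0 hy0 hz0 hq)), ?_, ?_⟩
  · rw [E0_some]
    refine ⟨ne_zero_of_norm hY, ?_, ?_⟩
    · unfold I; rw [padicNorm.div, hX, hY]; norm_num
    · unfold I; rw [padicNorm.div, padicNorm.one, hY]; norm_num
  · rw [tt_some]
    unfold M
    rw [padicNorm.div, hX, hY]
    norm_num

lemma M_B {n : ℤ} (hpn : (p : ℤ) ∣ n) : M p (-432 * (n : ℚ) ^ 2) := by
  have h1 : M p (n : ℚ) := (padicNorm.int_lt_one_iff n).2 hpn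
  have h2 : M p ((n : ℚ) ^ 2) := by rw [sq]; exact h1.mul (I.of_M h1)
  refine M.mul' ?_ h2
  have := I.int (p := p) (-432)
  push_cast at this
  exact this

end

/-- Tripling on `Y² = X³ - 432 n²` in the coordinates of `x³ + y³ = n z³`; here
`r = x² - x y + y²`, `d = x - y`. -/
lemma triple_aux {B x y z r d : ℚ} (hx : x ≠ 0) (hy : y ≠ 0) (hz : z ≠ 0) (hd : d ≠ 0)
    (hr : r ≠ 0) (hdd : d = x - y) (hrr : r = x ^ 2 - x * y + y ^ 2)
    (h : (cv B).toAffine.Nonsingular (12 * r / z ^ 2) (36 * d * r / z ^ 3)) :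
    ∃ Y3 h3, (3 : ℕ) • (Point.some _ _ h : (cv B).toAffine.Point) =
      Point.some (4 * (x ^ 6 + x ^ 3 * y ^ 3 + y ^ 6) / (x * y * z) ^ 2) Y3 h3 := by
  set X := 12 * r / z ^ 2 with hX
  set Y := 36 * d * r / z ^ 3 with hY
  have hX0 : X ≠ 0 := by rw [hX]; positivity
  have hY0 : Y ≠ 0 := by rw [hY]; positivity
  have hnegY : ∀ a b : ℚ, (cv B).toAffine.negY a b = - b := by
    intro a b; simp [cv, negY]
  have hne1 : ¬ (X = X ∧ Y = (cv B).toAffine.negY X Y) := by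
    rintro ⟨-, h1⟩
    rw [hnegY] at h1
    exact hY0 (by linarith)
  have hsl1 : (cv B).toAffine.slope X X Y Y = 6 * r / (z * d) := by
    rw [slope_of_Y_ne rfl (fun h1 => hne1 ⟨rfl, h1⟩), hnegY]
    simp only [cv]
    rw [hX, hY]
    field_simp
    ring
  have hX2 : (cv B).toAffine.addX X X ((cv B).toAffine.slope X X Y Y) =
      12 * r * (3 * r - 2 * d ^ 2) / (z ^ 2 * d ^ 2) := by
    rw [hsl1]
    simp only [cv, addX]
    rw [hX]
    field_simp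
    ring
  have hY2 : (cv B).toAffine.addY X X Y ((cv B).toAffine.slope X X Y Y) =
      -(36 * r * (6 * r * (r - d ^ 2) + d ^ 4)) / (z ^ 3 * d ^ 3) := by
    rw [hsl1]
    simp only [cv, addY, negAddY, negY, addX]
    rw [hX, hY]
    field_simp
    ring
  have h2P : (Point.some X Y h : (cv B).toAffine.Point) + Point.some X Y h =
      Point.some _ _ (nonsingular_add h h hne1) := Point.add_some hne1
  have hxy : r - d ^ 2 = x * y := by rw [hrr, hdd]; ring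
  have hrd : r - d ^ 2 ≠ 0 := by rw [hxy]; exact mul_ne_zero hx hy
  have hdiff : 12 * r * (3 * r - 2 * d ^ 2) / (z ^ 2 * d ^ 2) - X =
      36 * r * (r - d ^ 2) / (z ^ 2 * d ^ 2) := by
    rw [hX]; field_simp; ring
  have hneX : 12 * r * (3 * r - 2 * d ^ 2) / (z ^ 2 * d ^ 2) ≠ X := by
    intro h0
    rw [h0, sub_self] at hdiff
    have : 36 * r * (r - d ^ 2) / (z ^ 2 * d ^ 2) ≠ 0 := by
      apply div_ne_zero
      · exact mul_ne_zero (mul_ne_zero (by norm_num) hr) hrd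
      · positivity
    exact this hdiff.symm
  have hsl2 : (cv B).toAffine.slope (12 * r * (3 * r - 2 * d ^ 2) / (z ^ 2 * d ^ 2)) X
      (-(36 * r * (6 * r * (r - d ^ 2) + d ^ 4)) / (z ^ 3 * d ^ 3)) Y =
      -(6 * r * (r - d ^ 2) + 2 * d ^ 4) / (z * d * (r - d ^ 2)) := by
    rw [slope_of_X_ne hneX, hdiff, hY]
    field_simp
    ring
  have h3P : (3 : ℕ) • (Point.some X Y h : (cv B).toAffine.Point) =
      Point.some X Y h + Point.some X Y h + Point.some X Y h := by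
    rw [succ_nsmul, succ_nsmul, one_nsmul]
  rw [h3P, h2P]
  have hne2 : (cv B).toAffine.addX X X ((cv B).toAffine.slope X X Y Y) ≠ X := by
    rw [hX2]; exact hneX
  rw [Point.add_of_X_ne hne2]
  have hX3 : (cv B).toAffine.addX ((cv B).toAffine.addX X X ((cv B).toAffine.slope X X Y Y)) X
      ((cv B).toAffine.slope ((cv B).toAffine.addX X X ((cv B).toAffine.slope X X Y Y)) X
        ((cv B).toAffine.addY X X Y ((cv B).toAffine.slope X X Y Y)) Y) =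
      4 * (x ^ 6 + x ^ 3 * y ^ 3 + y ^ 6) / (x * y * z) ^ 2 := by
    rw [hX2, hY2, hsl2, hxy]
    simp only [cv, addX]
    have hd' : x - y ≠ 0 := by rw [← hdd]; exact hd
    rw [hX, hrr, hdd]
    field_simp
    ring
  have key : ∀ (a b : ℚ) (hab : (cv B).toAffine.Nonsingular a b) (c : ℚ), a = c →
      ∃ Y3 h3, (Point.some a b hab : (cv B).toAffine.Point) = Point.some c Y3 h3 := by
    rintro a b hab c rfl
    exact ⟨b, hab, rfl⟩
  exact key _ _ _ _ hX3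

end Pool.H85.AAC
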