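import Mathlib
import Pool.Agent.H85.AAC.Basic
import Pool.Agent.H85.AAC.Triple

/-!
# The elliptic Ankeny–Artin–Chowla question and solutions of `x³ + y³ = pᵉ z³` prime to `p`

For a prime `p ≥ 5` and `e = 1, 2` let `E : Y² = X³ - 432 p^(2e)`. We show that the implication of
Q1 for the curve `E` is equivalent to one condition on the third multiple of a generator, and to
the existence of a solution of `x³ + y³ = pᵉ z³` with `p ∤ xyz`; and we prove it for all primes in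
four families.
-/

set_option autoImplicit false
set_option linter.unusedSectionVars false

namespace Pool.H85.AAC

open WeierstrassCurve WeierstrassCurve.Affine

/-- The curve `E_{p,c} : Y² = X³ - 432 p^c` over the rationals. -/
def curve (p c : ℕ) : WeierstrassCurve ℚ := ⟨0, 0, 0, 0, -432 * (p : ℚ) ^ c⟩

/-- `P` generates the group of rational points. -/
def Generates {W : WeierstrassCurve ℚ} (P : W.toAffine.Point) : Prop :=
  ∀ Q : W.toAffine.Point, ∃ n : ℤ, Q = n • P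

/-- `Q` is an affine point and `p` divides the denominator of its `X`-coordinate. -/
def DenDvd (p : ℕ) {W : WeierstrassCurve ℚ} (Q : W.toAffine.Point) : Prop :=
  ∃ (x y : ℚ) (h : W.toAffine.Nonsingular x y), Q = Point.some x y h ∧ p ∣ x.den

/-- Q1 for the curve `E_{p,c}`: for every generator `P` and every `k > 0`, if `p` divides the
denominator of `k P` then `p` divides `k`. -/
def Q1At (p c : ℕ) : Prop :=
  ∀ P : (curve p c).toAffine.Point, Generates P →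
    ∀ k : ℕ, 0 < k → DenDvd p (k • P) → p ∣ k

/-- `x³ + y³ = pᵉ z³` has an integer solution with `p` dividing none of `x, y, z`. -/
def GoodSolution (p e : ℕ) : Prop :=
  ∃ x y z : ℤ, x ^ 3 + y ^ 3 = (p : ℤ) ^ e * z ^ 3 ∧
    ¬ (p : ℤ) ∣ x ∧ ¬ (p : ℤ) ∣ y ∧ ¬ (p : ℤ) ∣ z


/-! ### Auxiliary facts -/

/-- The curve in the shape used by the helper files. -/
lemma curve_eq (p e : ℕ) : curve p (2 * e) = cv (-432 * (((p : ℤ) ^ e : ℤ) : ℚ) ^ 2) := by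
  unfold curve cv
  congr 1
  push_cast
  rw [← pow_mul, mul_comm e 2]

lemma denDvd_iff_E1 {p : ℕ} {B : ℚ} (Q : (cv B).toAffine.Point) (hQ : Q ≠ 0) :
    DenDvd p Q ↔ E1 p Q := by
  rcases Q with _ | ⟨x, y, h⟩
  · exact absurd rfl hQ
  · constructor
    · rintro ⟨x', y', h', he, hd⟩
      rw [Point.some.injEq] at he
      change p ∣ x.den
      rw [he.1]
      exact hd
    · intro hd
      exact ⟨x, y, h, rfl, hd⟩

lemma denDvd_E1 {p : ℕ} {B : ℚ} {Q : (cv B).toAffine.Point} (h : DenDvd p Q) : E1 p Q := by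
  obtain ⟨x, y, h', rfl, hd⟩ := h
  exact hd

section

variable {p : ℕ} [hp : Fact p.Prime]

/-- Direction A: a good solution gives Q1 for the curve. -/
theorem q1_of_good (h5 : 5 ≤ p) {e : ℕ} (he : e ≠ 0) (hg : GoodSolution p e) :
    Q1At p (2 * e) := by
  obtain ⟨x, y, z, h, hx, hy, hz⟩ := hg
  have hpn : (p : ℤ) ∣ (p : ℤ) ^ e := dvd_pow_self _ he
  have hn0 : ((p : ℤ) ^ e) ≠ 0 := pow_ne_zero _ (by exact_mod_cast hp.out.ne_zero)
  unfold Q1At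
  rw [curve_eq]
  intro P hP k _ hk
  obtain ⟨R, hR0, hR1⟩ := exists_point (p := p) h5 hpn hx hy h hz hn0
  exact criterion (M_B hpn) (hP R) hR0 hR1 (denDvd_E1 hk)

/-- Removing common factors `p` from a solution. -/
lemma reduce {e : ℕ} (he1 : 1 ≤ e) (he2 : e ≤ 2) :
    ∀ (N : ℕ) (x y z : ℤ), z.natAbs ≤ N → z ≠ 0 → x ^ 3 + y ^ 3 = (p : ℤ) ^ e * z ^ 3 →
      ∃ (x' y' z' l : ℤ), l ≠ 0 ∧ z' ≠ 0 ∧ x = l * x' ∧ y = l * y' ∧ z = l * z' ∧
        x' ^ 3 + y' ^ 3 = (p : ℤ) ^ e * z' ^ 3 ∧ ¬ (p : ℤ) ∣ x' := by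
  have hpp : Prime (p : ℤ) := Nat.prime_iff_prime_int.1 hp.out
  have hp0 : (p : ℤ) ≠ 0 := hpp.ne_zero
  intro N
  induction N with
  | zero =>
    intro x y z hz hz0 _
    exact absurd (Int.natAbs_eq_zero.1 (Nat.le_zero.1 hz)) hz0
  | succ N ih =>
    intro x y z hz hz0 h
    by_cases hx : (p : ℤ) ∣ x
    · have hpe : (p : ℤ) ∣ (p : ℤ) ^ e := dvd_pow_self _ (by omega)
      have hs : (p : ℤ) ∣ x ^ 3 + y ^ 3 := by rw [h]; exact hpe.mul_right _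
      have hy : (p : ℤ) ∣ y :=
        hpp.dvd_of_dvd_pow ((Int.dvd_add_right (dvd_pow hx (by norm_num : (3 : ℕ) ≠ 0))).1 hs)
      obtain ⟨x1, rfl⟩ := hx
      obtain ⟨y1, rfl⟩ := hy
      have hz' : (p : ℤ) ∣ z := by
        obtain ⟨f, hf⟩ : ∃ f, e + (f + 1) = 3 := ⟨2 - e, by omega⟩
        have h1 : (p : ℤ) ^ e * z ^ 3 = (p : ℤ) ^ e * ((p : ℤ) ^ (f + 1) * (x1 ^ 3 + y1 ^ 3)) := by
          rw [← h, ← mul_assoc, ← pow_add, hf]; ring
        have h2 := mul_left_cancel₀ (pow_ne_zero e hp0) h1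
        apply hpp.dvd_of_dvd_pow (n := 3)
        rw [h2, pow_succ]
        exact ⟨(p : ℤ) ^ f * (x1 ^ 3 + y1 ^ 3), by ring⟩
      obtain ⟨z1, rfl⟩ := hz'
      have hz1 : z1 ≠ 0 := by rintro rfl; simp at hz0
      have h3 : x1 ^ 3 + y1 ^ 3 = (p : ℤ) ^ e * z1 ^ 3 := by
        have : (p : ℤ) ^ 3 * (x1 ^ 3 + y1 ^ 3) = (p : ℤ) ^ 3 * ((p : ℤ) ^ e * z1 ^ 3) := by
          linear_combination h
        exact mul_left_cancel₀ (pow_ne_zero 3 hp0) this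
      have hlt : z1.natAbs ≤ N := by
        rw [Int.natAbs_mul, Int.natAbs_natCast] at hz
        have h4 : 2 * z1.natAbs ≤ p * z1.natAbs := Nat.mul_le_mul_right _ hp.out.two_le
        have h5 : 0 < z1.natAbs := Int.natAbs_pos.2 hz1
        omega
      obtain ⟨x', y', z', l, hl, hz0', e1, e2, e3, h4, h5⟩ := ih x1 y1 z1 hlt hz1 h3
      refine ⟨x', y', z', (p : ℤ) * l, mul_ne_zero hp0 hl, hz0', ?_, ?_, ?_, h4, h5⟩
      · rw [e1]; ring
      · rw [e2]; ring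
      · rw [e3]; ring
    · exact ⟨x, y, z, 1, one_ne_zero, hz0, by ring, by ring, by ring, h, hx⟩

/-- Every affine point comes from an integer solution with `p ∤ x`. -/
lemma exists_solution {e : ℕ} (he1 : 1 ≤ e) (he2 : e ≤ 2) {X Y : ℚ}
    (h : Y ^ 2 = X ^ 3 + (-432 * (((p : ℤ) ^ e : ℤ) : ℚ) ^ 2)) :
    ∃ x y z : ℤ, x ^ 3 + y ^ 3 = (p : ℤ) ^ e * z ^ 3 ∧ z ≠ 0 ∧ ¬ (p : ℤ) ∣ x ∧
      X = 12 * ((x : ℚ) ^ 2 - x * y + y ^ 2) / (z : ℚ) ^ 2 ∧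
      Y = 36 * ((x : ℚ) - y) * ((x : ℚ) ^ 2 - x * y + y ^ 2) / (z : ℚ) ^ 3 := by
  set n : ℤ := (p : ℤ) ^ e with hn
  have hn0 : (n : ℚ) ≠ 0 := by
    rw [hn]; exact_mod_cast pow_ne_zero _ hp.out.ne_zero
  have hX0 : X ≠ 0 := by
    rintro rfl
    have h1 : (0 : ℚ) < (n : ℚ) ^ 2 := by positivity
    nlinarith [sq_nonneg Y]
  set D : ℤ := (X.den : ℤ) * (Y.den : ℤ) with hD
  have hXd : (X.den : ℚ) ≠ 0 := by exact_mod_cast X.den_ne_zero
  have hYd : (Y.den : ℚ) ≠ 0 := by exact_mod_cast Y.den_ne_zero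
  have hD0 : (D : ℚ) ≠ 0 := by rw [hD]; push_cast; exact mul_ne_zero hXd hYd
  have hXN : ((X.num * (Y.den : ℤ) : ℤ) : ℚ) = D * X := by
    rw [hD]; push_cast
    have := Rat.mul_den_eq_num X
    linear_combination (-(Y.den : ℚ)) * this
  have hYN : ((Y.num * (X.den : ℤ) : ℤ) : ℚ) = D * Y := by
    rw [hD]; push_cast
    have := Rat.mul_den_eq_num Y
    linear_combination (-(X.den : ℚ)) * this
  set x0 : ℤ := 36 * n * D + Y.num * (X.den : ℤ) with hx0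
  set y0 : ℤ := 36 * n * D - Y.num * (X.den : ℤ) with hy0
  set z0 : ℤ := 6 * (X.num * (Y.den : ℤ)) with hz0
  have cx : (x0 : ℚ) = D * (36 * n + Y) := by
    rw [hx0, Int.cast_add, hYN]; push_cast; ring
  have cy : (y0 : ℚ) = D * (36 * n - Y) := by
    rw [hy0, Int.cast_sub, hYN]; push_cast; ring
  have cz : (z0 : ℚ) = 6 * D * X := by
    rw [hz0, Int.cast_mul, hXN]; push_cast; ring
  have heq : x0 ^ 3 + y0 ^ 3 = n * z0 ^ 3 := by
    have : (x0 : ℚ) ^ 3 + (y0 : ℚ) ^ 3 = n * (z0 : ℚ) ^ 3 := by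
      rw [cx, cy, cz]
      linear_combination (216 * n * (D : ℚ) ^ 3) * h
    exact_mod_cast this
  have hz00 : z0 ≠ 0 := by
    intro h0
    have : (z0 : ℚ) = 0 := by rw [h0]; norm_num
    rw [cz] at this
    exact (mul_ne_zero (mul_ne_zero (by norm_num) hD0) hX0) this
  obtain ⟨x, y, z, l, hl, hz, ex, ey, ez, hs, hpx⟩ :=
    reduce (p := p) he1 he2 z0.natAbs x0 y0 z0 le_rfl hz00 heq
  refine ⟨x, y, z, hs, hz, hpx, ?_, ?_⟩
  · have hl' : (l : ℚ) ≠ 0 := by exact_mod_cast hl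
    have hz' : (z : ℚ) ≠ 0 := by exact_mod_cast hz
    have hx' : (l : ℚ) * x = D * (36 * n + Y) := by rw [← cx, ex]; push_cast; ring
    have hy' : (l : ℚ) * y = D * (36 * n - Y) := by rw [← cy, ey]; push_cast; ring
    have hz'' : (l : ℚ) * z = 6 * D * X := by rw [← cz, ez]; push_cast; ring
    have hr : (l : ℚ) ^ 2 * ((x : ℚ) ^ 2 - x * y + y ^ 2) = 3 * (D : ℚ) ^ 2 * X ^ 3 := by
      have : (l : ℚ) ^ 2 * ((x : ℚ) ^ 2 - x * y + y ^ 2) =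
          (l * x) ^ 2 - (l * x) * (l * y) + (l * y) ^ 2 := by ring
      rw [this, hx', hy']
      linear_combination (3 * (D : ℚ) ^ 2) * h
    rw [eq_div_iff (pow_ne_zero 2 hz')]
    have : (l : ℚ) ^ 2 * (X * (z : ℚ) ^ 2) =
        (l : ℚ) ^ 2 * (12 * ((x : ℚ) ^ 2 - x * y + y ^ 2)) := by
      have e1 : (l : ℚ) ^ 2 * (X * (z : ℚ) ^ 2) = X * (l * z) ^ 2 := by ring
      rw [e1, hz'']
      linear_combination (-12) * hr
    exact mul_left_cancel₀ (pow_ne_zero 2 hl') this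
  · have hl' : (l : ℚ) ≠ 0 := by exact_mod_cast hl
    have hz' : (z : ℚ) ≠ 0 := by exact_mod_cast hz
    have hx' : (l : ℚ) * x = D * (36 * n + Y) := by rw [← cx, ex]; push_cast; ring
    have hy' : (l : ℚ) * y = D * (36 * n - Y) := by rw [← cy, ey]; push_cast; ring
    have hz'' : (l : ℚ) * z = 6 * D * X := by rw [← cz, ez]; push_cast; ring
    have hr : (l : ℚ) ^ 2 * ((x : ℚ) ^ 2 - x * y + y ^ 2) = 3 * (D : ℚ) ^ 2 * X ^ 3 := by
      have : (l : ℚ) ^ 2 * ((x : ℚ) ^ 2 - x * y + y ^ 2) =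
          (l * x) ^ 2 - (l * x) * (l * y) + (l * y) ^ 2 := by ring
      rw [this, hx', hy']
      linear_combination (3 * (D : ℚ) ^ 2) * h
    rw [eq_div_iff (pow_ne_zero 3 hz')]
    have : (l : ℚ) ^ 3 * (Y * (z : ℚ) ^ 3) =
        (l : ℚ) ^ 3 * (36 * ((x : ℚ) - y) * ((x : ℚ) ^ 2 - x * y + y ^ 2)) := by
      have e1 : (l : ℚ) ^ 3 * (Y * (z : ℚ) ^ 3) = Y * (l * z) ^ 3 := by ring
      have e2 : (l : ℚ) ^ 3 * (36 * ((x : ℚ) - y) * ((x : ℚ) ^ 2 - x * y + y ^ 2)) =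
          36 * (l * x - l * y) * ((l : ℚ) ^ 2 * ((x : ℚ) ^ 2 - x * y + y ^ 2)) := by ring
      rw [e1, e2, hz'', hr, hx', hy']
      ring
    exact mul_left_cancel₀ (pow_ne_zero 3 hl') this

/-- A good solution exists, or `p` divides the denominator of `3 P`. -/
theorem good_or (h5 : 5 ≤ p) {e : ℕ} (he1 : 1 ≤ e) (he2 : e ≤ 2)
    (P : (cv (-432 * (((p : ℤ) ^ e : ℤ) : ℚ) ^ 2)).toAffine.Point) (hP : P ≠ 0) :
    GoodSolution p e ∨ DenDvd p ((3 : ℕ) • P) := by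
  have hpp : Prime (p : ℤ) := Nat.prime_iff_prime_int.1 hp.out
  obtain ⟨h2, -⟩ := five_le_facts (p := p) h5
  rcases P with _ | ⟨X, Y, hns⟩
  · exact absurd rfl hP
  obtain ⟨x, y, z, hs, hz0, hpx, hX, hY⟩ :=
    exists_solution (p := p) he1 he2 ((eqn_iff X Y).1 hns.1)
  have hpe : (p : ℤ) ∣ (p : ℤ) ^ e := dvd_pow_self _ (by omega)
  have hsd : (p : ℤ) ∣ x ^ 3 + y ^ 3 := by rw [hs]; exact hpe.mul_right _
  have hpy : ¬ (p : ℤ) ∣ y := by
    intro hy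
    exact hpx (hpp.dvd_of_dvd_pow
      ((Int.dvd_add_left (dvd_pow hy (by norm_num : (3 : ℕ) ≠ 0))).1 hsd))
  by_cases hpz : (p : ℤ) ∣ z
  · right
    have hx0 : (x : ℚ) ≠ 0 := by
      intro h0; apply hpx; rw [Int.cast_eq_zero.1 h0]; exact dvd_zero _
    have hy0 : (y : ℚ) ≠ 0 := by
      intro h0; apply hpy; rw [Int.cast_eq_zero.1 h0]; exact dvd_zero _
    have hz0' : (z : ℚ) ≠ 0 := by exact_mod_cast hz0
    have hd : ((x : ℚ) - y) ≠ 0 := by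
      intro h0
      have hxy : x = y := by
        have : (x : ℚ) = y := by linarith
        exact_mod_cast this
      rw [hxy] at hsd
      have : (p : ℤ) ∣ 2 * y ^ 3 := by
        have e1 : 2 * y ^ 3 = y ^ 3 + y ^ 3 := by ring
        rw [e1]; exact hsd
      rcases hpp.dvd_or_dvd this with h3 | h3
      · exact h2 h3
      · exact hpy (hpp.dvd_of_dvd_pow h3)
    have hr : ((x : ℚ) ^ 2 - x * y + y ^ 2) ≠ 0 := by
      have : 0 < (x : ℚ) ^ 2 - x * y + y ^ 2 := by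
        nlinarith [sq_nonneg ((x : ℚ) - y), sq_nonneg ((x : ℚ) + y), sq_pos_of_ne_zero hx0]
      exact ne_of_gt this
    subst hX
    subst hY
    obtain ⟨Y3, h3, e3⟩ := triple_aux hx0 hy0 hz0' hd hr rfl rfl hns
    refine ⟨_, Y3, h3, e3, ?_⟩
    rw [den_dvd_iff]
    have h4 : padicNorm p (4 : ℚ) = 1 := by
      have : ¬ (p : ℤ) ∣ 4 := by
        intro h'
        have h'' : (p : ℤ) ∣ 2 * 2 := by simpa using h'
        rcases hpp.dvd_or_dvd h'' with h6 | h6 <;> exact h2 h6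
      have := norm_eq_one (p := p) this
      simpa using this
    have hA : padicNorm p ((x : ℚ) ^ 6 + (x : ℚ) ^ 3 * (y : ℚ) ^ 3 + (y : ℚ) ^ 6) = 1 := by
      have : ¬ (p : ℤ) ∣ x ^ 6 + x ^ 3 * y ^ 3 + y ^ 6 := by
        intro h'
        have e : x ^ 6 + x ^ 3 * y ^ 3 + y ^ 6 = x ^ 6 + y ^ 3 * (x ^ 3 + y ^ 3) := by ring
        rw [e] at h'
        have := (Int.dvd_add_left (hsd.mul_left (y ^ 3))).1 h'
        exact hpx (hpp.dvd_of_dvd_pow this)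
      have := norm_eq_one (p := p) this
      push_cast at this
      exact this
    have hzl : padicNorm p (z : ℚ) < 1 := (padicNorm.int_lt_one_iff z).2 hpz
    have hzp : 0 < padicNorm p (z : ℚ) :=
      lt_of_le_of_ne (padicNorm.nonneg _) (Ne.symm (padicNorm.nonzero hz0'))
    have hden : padicNorm p (((x : ℚ) * y * z) ^ 2) = padicNorm p (z : ℚ) ^ 2 := by
      rw [sq, sq, padicNorm.mul, padicNorm.mul, padicNorm.mul, norm_eq_one (p := p) hpx,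
        norm_eq_one (p := p) hpy]
      ring
    rw [padicNorm.div, padicNorm.mul, h4, hA, hden, one_mul]
    rw [one_lt_div (by positivity)]
    exact pow_lt_one₀ (le_of_lt hzp) hzl (by norm_num)
  · left
    exact ⟨x, y, z, hs, hpx, hpy, hpz⟩

end

/-! ### Families -/

section

variable {p : ℕ} [hp : Fact p.Prime]

lemma good_neg {e : ℕ} {x y z : ℤ} (h : x ^ 3 + y ^ 3 = -((p : ℤ) ^ e * z ^ 3))
    (hx : ¬ (p : ℤ) ∣ x) (hy : ¬ (p : ℤ) ∣ y) (hz : ¬ (p : ℤ) ∣ z) : GoodSolution p e := by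
  refine ⟨-x, -y, z, ?_, ?_, ?_, hz⟩
  · linear_combination (-1) * h
  · rwa [dvd_neg]
  · rwa [dvd_neg]

/-- First family: `± pᵉ` is a value of the cubic form `a³ + 3a²b - 6ab² + b³`. -/
lemma family_form (h5 : 5 ≤ p) {e : ℕ} (he1 : 1 ≤ e) (he2 : e ≤ 2) {a b : ℤ}
    (h : a ^ 3 + 3 * a ^ 2 * b - 6 * a * b ^ 2 + b ^ 3 = (p : ℤ) ^ e ∨
      a ^ 3 + 3 * a ^ 2 * b - 6 * a * b ^ 2 + b ^ 3 = -(p : ℤ) ^ e) : GoodSolution p e := by
  have hpp : Prime (p : ℤ) := Nat.prime_iff_prime_int.1 hp.out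
  obtain ⟨h2, h3⟩ := five_le_facts (p := p) h5
  have hpe : (p : ℤ) ∣ (p : ℤ) ^ e := dvd_pow_self _ (by omega)
  set f : ℤ := a ^ 3 + 3 * a ^ 2 * b - 6 * a * b ^ 2 + b ^ 3 with hf
  have hpf : (p : ℤ) ∣ f := by
    rcases h with h | h
    · rw [h]; exact hpe
    · rw [h, dvd_neg]; exact hpe
  have hab : ¬ ((p : ℤ) ∣ a ∧ (p : ℤ) ∣ b) := by
    rintro ⟨⟨a', rfl⟩, ⟨b', rfl⟩⟩
    have h3' : (p : ℤ) ^ 3 ∣ f := ⟨a' ^ 3 + 3 * a' ^ 2 * b' - 6 * a' * b' ^ 2 + b' ^ 3, by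
      rw [hf]; ring⟩
    have h4 : (p : ℤ) ^ 3 ∣ (p : ℤ) ^ e := by
      rcases h with h | h
      · rw [h] at h3'; exact h3'
      · rw [h, dvd_neg] at h3'; exact h3'
    have := (pow_dvd_pow_iff hpp.ne_zero hpp.not_isUnit).1 h4
    omega
  have hN : ¬ (p : ℤ) ∣ a ^ 2 - a * b + b ^ 2 := by
    intro hN
    have e1 : f - (a + 4 * b) * (a ^ 2 - a * b + b ^ 2) = -(3 * (b ^ 2 * (a + b))) := by
      rw [hf]; ring
    have h4 : (p : ℤ) ∣ 3 * (b ^ 2 * (a + b)) := by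
      rw [← dvd_neg, ← e1]
      exact dvd_sub hpf (hN.mul_left _)
    rcases hpp.dvd_or_dvd h4 with h6 | h6
    · exact h3 h6
    rcases hpp.dvd_or_dvd h6 with h7 | h7
    · have hb : (p : ℤ) ∣ b := hpp.dvd_of_dvd_pow h7
      have ha : (p : ℤ) ∣ a ^ 2 := by
        have e2 : a ^ 2 = (a ^ 2 - a * b + b ^ 2) + b * (a - b) := by ring
        rw [e2]
        exact dvd_add hN (hb.mul_right _)
      exact hab ⟨hpp.dvd_of_dvd_pow ha, hb⟩
    · have h8 : (p : ℤ) ∣ 3 * b ^ 2 := by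
        have e2 : 3 * b ^ 2 = (a ^ 2 - a * b + b ^ 2) - (a + b) * (a - 2 * b) := by ring
        rw [e2]
        exact dvd_sub hN (h7.mul_right _)
      rcases hpp.dvd_or_dvd h8 with h9 | h9
      · exact h3 h9
      · have hb : (p : ℤ) ∣ b := hpp.dvd_of_dvd_pow h9
        have ha : (p : ℤ) ∣ a := by
          have e2 : a = (a + b) - b := by ring
          rw [e2]; exact dvd_sub h7 hb
        exact hab ⟨ha, hb⟩
  -- the solution
  set x : ℤ := a ^ 3 - 3 * a * b ^ 2 + b ^ 3 with hx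
  set y : ℤ := 3 * a ^ 2 * b - 3 * a * b ^ 2 with hy
  have hsum : x + y = f := by rw [hx, hy, hf]; ring
  have hnorm : x ^ 2 - x * y + y ^ 2 = (a ^ 2 - a * b + b ^ 2) ^ 3 := by rw [hx, hy]; ring
  have hcube : x ^ 3 + y ^ 3 = f * (a ^ 2 - a * b + b ^ 2) ^ 3 := by
    rw [← hsum, ← hnorm]; ring
  have hpN3 : ¬ (p : ℤ) ∣ x ^ 2 - x * y + y ^ 2 := by
    rw [hnorm]; intro h'; exact hN (hpp.dvd_of_dvd_pow h')
  have hpx : ¬ (p : ℤ) ∣ x := by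
    intro h'
    apply hpN3
    have e2 : x ^ 2 - x * y + y ^ 2 = (x + y) ^ 2 - x * (3 * y) := by ring
    rw [e2, hsum]
    exact dvd_sub (dvd_pow hpf two_ne_zero) (h'.mul_right _)
  have hpy : ¬ (p : ℤ) ∣ y := by
    intro h'
    apply hpN3
    have e2 : x ^ 2 - x * y + y ^ 2 = (x + y) ^ 2 - y * (3 * x) := by ring
    rw [e2, hsum]
    exact dvd_sub (dvd_pow hpf two_ne_zero) (h'.mul_right _)
  rcases h with h | h
  · exact ⟨x, y, a ^ 2 - a * b + b ^ 2, by rw [hcube, h], hpx, hpy, hN⟩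
  · exact good_neg (by rw [hcube, h]; ring) hpx hpy hN

lemma not_dvd_of_sum {x y s r : ℤ} (hs : x + y = s) (hr : x ^ 2 - x * y + y ^ 2 = r)
    (hps : ¬ (p : ℤ) ∣ s) (hpr : (p : ℤ) ∣ r) : ¬ (p : ℤ) ∣ x ∧ ¬ (p : ℤ) ∣ y := by
  have hpp : Prime (p : ℤ) := Nat.prime_iff_prime_int.1 hp.out
  constructor
  · intro h'
    apply hps
    have e2 : y ^ 2 = (x ^ 2 - x * y + y ^ 2) - x * (x - y) := by ring
    have h1 : (p : ℤ) ∣ y ^ 2 := by rw [e2, hr]; exact dvd_sub hpr (h'.mul_right _)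
    rw [← hs]; exact dvd_add h' (hpp.dvd_of_dvd_pow h1)
  · intro h'
    apply hps
    have e2 : x ^ 2 = (x ^ 2 - x * y + y ^ 2) - y * (y - x) := by ring
    have h1 : (p : ℤ) ∣ x ^ 2 := by rw [e2, hr]; exact dvd_sub hpr (h'.mul_right _)
    rw [← hs]; exact dvd_add (hpp.dvd_of_dvd_pow h1) h'

/-- `p ∤ u` in the second and third families. -/
lemma not_dvd_u (h5 : 5 ≤ p) {e : ℕ} (he1 : 1 ≤ e) (he2 : e ≤ 2) {u m A C : ℤ}
    (hA : 0 < A) (hC : 0 < C) (hu : u ≠ 0)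
    (h : 4 * (p : ℤ) ^ e = A * u ^ 6 + C * m ^ 2) : ¬ (p : ℤ) ∣ u := by
  have hpp : Prime (p : ℤ) := Nat.prime_iff_prime_int.1 hp.out
  intro hpu
  have hpe : (p : ℤ) ∣ (p : ℤ) ^ e := dvd_pow_self _ (by omega)
  have hm : (p : ℤ) ∣ C * m ^ 2 := by
    have e1 : C * m ^ 2 = 4 * (p : ℤ) ^ e - A * u ^ 6 := by linarith
    rw [e1]
    exact dvd_sub (hpe.mul_left _) ((dvd_pow hpu (by norm_num)).mul_left _)
  obtain ⟨u', rfl⟩ := hpu
  have hu' : u' ≠ 0 := by rintro rfl; simp at hu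
  have h1 : (p : ℤ) ^ 6 ≤ A * ((p : ℤ) * u') ^ 6 := by
    have h2 : (1 : ℤ) ≤ A * u' ^ 6 := by
      have : 0 < A * u' ^ 6 := mul_pos hA (by positivity)
      omega
    have h3 : (0 : ℤ) ≤ (p : ℤ) ^ 6 := by positivity
    calc (p : ℤ) ^ 6 = (p : ℤ) ^ 6 * 1 := by ring
      _ ≤ (p : ℤ) ^ 6 * (A * u' ^ 6) := mul_le_mul_of_nonneg_left h2 h3
      _ = A * ((p : ℤ) * u') ^ 6 := by ring
  have h2 : 4 * (p : ℤ) ^ e < (p : ℤ) ^ 6 := by
    have h5' : (5 : ℤ) ≤ p := by exact_mod_cast h5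
    have h3 : (p : ℤ) ^ e ≤ (p : ℤ) ^ 2 := pow_le_pow_right₀ (by linarith) he2
    have h4 : (p : ℤ) ^ 6 = (p : ℤ) ^ 2 * (p : ℤ) ^ 4 := by ring
    have h6 : (5 : ℤ) ^ 4 ≤ (p : ℤ) ^ 4 := pow_le_pow_left₀ (by norm_num) h5' 4
    have h7 : 0 < (p : ℤ) ^ 2 := by positivity
    rw [h4]
    nlinarith
  have h3 : 0 ≤ C * m ^ 2 := mul_nonneg hC.le (sq_nonneg m)
  linarith

/-- Second family: `4 pᵉ = u⁶ + 3 m²`. -/
lemma family_two (h5 : 5 ≤ p) {e : ℕ} (he1 : 1 ≤ e) (he2 : e ≤ 2) {u m : ℤ} (hu : u ≠ 0)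
    (h : 4 * (p : ℤ) ^ e = u ^ 6 + 3 * m ^ 2) : GoodSolution p e := by
  obtain ⟨h2, h3⟩ := five_le_facts (p := p) h5
  have hpe : (p : ℤ) ∣ (p : ℤ) ^ e := dvd_pow_self _ (by omega)
  have hpp : Prime (p : ℤ) := Nat.prime_iff_prime_int.1 hp.out
  have hpu : ¬ (p : ℤ) ∣ u :=
    not_dvd_u (A := 1) (C := 3) h5 he1 he2 (by norm_num) (by norm_num) hu (by linarith)
  have hpar : Even (u ^ 3 + m) := by
    by_contra hodd
    rw [Int.not_even_iff_odd] at hodd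
    have h4 : Odd (u ^ 6 + 3 * m ^ 2) := by
      have e1 : u ^ 6 + 3 * m ^ 2 = (u ^ 3 + m) ^ 2 + 2 * (m ^ 2 - u ^ 3 * m) := by ring
      rw [e1]
      exact (hodd.pow).add_even (even_two_mul _)
    rw [← h] at h4
    have h6 : Even (4 * (p : ℤ) ^ e) := ⟨2 * (p : ℤ) ^ e, by ring⟩
    exact (Int.not_even_iff_odd.2 h4) h6
  obtain ⟨x, hx⟩ := hpar
  have hxy : x + (u ^ 3 - x) = u ^ 3 := by ring
  have hN : x ^ 2 - x * (u ^ 3 - x) + (u ^ 3 - x) ^ 2 = (p : ℤ) ^ e := by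
    have hm : m = 2 * x - u ^ 3 := by linarith
    have : 4 * (x ^ 2 - x * (u ^ 3 - x) + (u ^ 3 - x) ^ 2) = 4 * (p : ℤ) ^ e := by
      rw [h, hm]; ring
    linarith
  have hps : ¬ (p : ℤ) ∣ u ^ 3 := fun h' => hpu (hpp.dvd_of_dvd_pow h')
  obtain ⟨h4, h6⟩ := not_dvd_of_sum hxy hN hps hpe
  refine ⟨x, u ^ 3 - x, u, ?_, h4, h6, hpu⟩
  rw [← hN]; ring

/-- Third family: `4 pᵉ = 27 u⁶ + m²`. -/
lemma family_three (h5 : 5 ≤ p) {e : ℕ} (he1 : 1 ≤ e) (he2 : e ≤ 2) {u m : ℤ} (hu : u ≠ 0)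
    (h : 4 * (p : ℤ) ^ e = 27 * u ^ 6 + m ^ 2) : GoodSolution p e := by
  obtain ⟨h2, h3⟩ := five_le_facts (p := p) h5
  have hpe : (p : ℤ) ∣ (p : ℤ) ^ e := dvd_pow_self _ (by omega)
  have hpp : Prime (p : ℤ) := Nat.prime_iff_prime_int.1 hp.out
  have hpu : ¬ (p : ℤ) ∣ u :=
    not_dvd_u (A := 27) (C := 1) h5 he1 he2 (by norm_num) (by norm_num) hu (by linarith)
  have hpar : Even (9 * u ^ 3 + m) := by
    by_contra hodd
    rw [Int.not_even_iff_odd] at hodd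
    have h4 : Odd (27 * u ^ 6 + m ^ 2) := by
      have e1 : 27 * u ^ 6 + m ^ 2 = (9 * u ^ 3 + m) ^ 2 + 2 * (-27 * u ^ 6 - 9 * u ^ 3 * m) := by
        ring
      rw [e1]
      exact (hodd.pow).add_even (even_two_mul _)
    rw [← h] at h4
    have h6 : Even (4 * (p : ℤ) ^ e) := ⟨2 * (p : ℤ) ^ e, by ring⟩
    exact (Int.not_even_iff_odd.2 h4) h6
  obtain ⟨x, hx⟩ := hpar
  have hxy : x + (9 * u ^ 3 - x) = 9 * u ^ 3 := by ring
  have hN : x ^ 2 - x * (9 * u ^ 3 - x) + (9 * u ^ 3 - x) ^ 2 = 3 * (p : ℤ) ^ e := by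
    have hm : m = 2 * x - 9 * u ^ 3 := by linarith
    have : 4 * (x ^ 2 - x * (9 * u ^ 3 - x) + (9 * u ^ 3 - x) ^ 2) = 3 * (4 * (p : ℤ) ^ e) := by
      rw [h, hm]; ring
    linarith
  have h9 : ¬ (p : ℤ) ∣ 3 * u := fun h' => (hpp.dvd_or_dvd h').elim h3 hpu
  have hps : ¬ (p : ℤ) ∣ 9 * u ^ 3 := by
    intro h'
    rcases hpp.dvd_or_dvd h' with h6 | h6
    · have : (p : ℤ) ∣ 3 * 3 := by simpa using h6
      exact (hpp.dvd_or_dvd this).elim h3 h3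
    · exact hpu (hpp.dvd_of_dvd_pow h6)
  obtain ⟨h4, h6⟩ := not_dvd_of_sum hxy hN hps (hpe.mul_left _)
  refine ⟨x, 9 * u ^ 3 - x, 3 * u, ?_, h4, h6, h9⟩
  have e3 : (p : ℤ) ^ e * (3 * u) ^ 3 = 9 * u ^ 3 * (3 * (p : ℤ) ^ e) := by ring
  rw [e3, ← hN]; ring

end

/-- **Main theorem.** Let `p ≥ 5` be prime and `e = 1` or `2`, `E : Y² = X³ - 432 p^(2e)`.
(1) If `x³ + y³ = pᵉ z³` has an integer solution with `p ∤ xyz`, then Q1 holds for `E`.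
(2) If `P ≠ O` generates `E(ℚ)`, then Q1 for `E`, the existence of such a solution, and `p` not
dividing the denominator of `3 P` are equivalent.
(3) Q1 holds for `E` whenever `± pᵉ = a³ + 3a²b - 6ab² + b³`, or `4 pᵉ = u⁶ + 3m²` or
`4 pᵉ = 27u⁶ + m²` with `u ≠ 0`. -/
theorem main (p : ℕ) (hp : p.Prime) (h5 : 5 ≤ p) (e : ℕ) (he : e = 1 ∨ e = 2) :
    (GoodSolution p e → Q1At p (2 * e)) ∧
    (∀ P : (curve p (2 * e)).toAffine.Point, P ≠ 0 → Generates P →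
      (Q1At p (2 * e) ↔ GoodSolution p e) ∧
      (Q1At p (2 * e) ↔ ¬ DenDvd p ((3 : ℕ) • P))) ∧
    ((∃ a b : ℤ, a ^ 3 + 3 * a ^ 2 * b - 6 * a * b ^ 2 + b ^ 3 = (p : ℤ) ^ e ∨
        a ^ 3 + 3 * a ^ 2 * b - 6 * a * b ^ 2 + b ^ 3 = -(p : ℤ) ^ e) ∨
      (∃ u m : ℤ, u ≠ 0 ∧
        (4 * (p : ℤ) ^ e = u ^ 6 + 3 * m ^ 2 ∨ 4 * (p : ℤ) ^ e = 27 * u ^ 6 + m ^ 2)) →
      Q1At p (2 * e)) := by
  have : Fact p.Prime := ⟨hp⟩
  have he1 : 1 ≤ e := by omega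
  have he2 : e ≤ 2 := by omega
  have he0 : e ≠ 0 := by omega
  have hA : GoodSolution p e → Q1At p (2 * e) := q1_of_good h5 he0
  refine ⟨hA, ?_, ?_⟩
  · have hB : ∀ P : (curve p (2 * e)).toAffine.Point, P ≠ 0 →
        GoodSolution p e ∨ DenDvd p ((3 : ℕ) • P) := by
      rw [curve_eq]
      intro P hP
      exact good_or h5 he1 he2 P hP
    intro P hP hgen
    have h3 : Q1At p (2 * e) → ¬ DenDvd p ((3 : ℕ) • P) := by
      intro hq hd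
      have := hq P hgen 3 (by norm_num) hd
      have := Nat.le_of_dvd (by norm_num) this
      omega
    have hgood : ¬ DenDvd p ((3 : ℕ) • P) → GoodSolution p e := fun hnd =>
      (hB P hP).resolve_right hnd
    exact ⟨⟨fun hq => hgood (h3 hq), hA⟩, ⟨h3, fun hnd => hA (hgood hnd)⟩⟩
  · rintro (⟨a, b, h⟩ | ⟨u, m, hu, h | h⟩)
    · exact hA (family_form h5 he1 he2 h)
    · exact hA (family_two h5 he1 he2 hu h)
    · exact hA (family_three h5 he1 he2 hu h)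

end Pool.H85.AAC
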